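import Pool.Agent.H893.TW.Cls
import Pool.Agent.H893.EC.Main
import Pool.Agent.H893.EC.Dense

/-!
MP_db9079_lc: hypothesis (R4), on which the decidability of the existential `L_val(t)`-theory of
`F_p((t))` depends (Anscombe, Dittmann, Fehm), for rational places of arbitrary rank with defect, in
all dimensions and over all large fields of characteristic `p` (for example over `F_p((t))`).

(R4) says that every large field `k` is existentially closed in every extension field `K` which
admits a valuation, trivial on `k`, with the residue field `k`. It is known for perfect `k`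
(Kuhlmann), for Abhyankar places and discrete places (Kuhlmann), and for `K` of transcendence degree
at most `3` over `k` (Cossart, Piltant).

Let `k` be a large field of characteristic `p > 0`, not necessarily perfect. We call a valuation
ring of a finitely generated field `K` over `k` nearly Abhyankar if it has rank one, and if it
misses equality in the Abhyankar inequality by at most one: `tr.deg(K / k)` is `r + s` or
`r + s + 1`, where `r ≥ 1` is the rational rank and `s` is the transcendence degree of the residue
field; in the second case the residue field has to be finitely generated over `k`, and infinite if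
`r = 1`. In the second case the value group is arbitrary, and the finite extensions of `K` over the
subfields generated by transcendence bases can have an arbitrary defect.

We call it ruled of deficiency two if it has rank one, its residue field is finitely generated over
`k`, `tr.deg(K / k) = r + s + 2` with `r ≥ 2`, and `K = E(t)` for a finitely generated subfield `E`
of the transcendence degree `r + s + 1` over `k` which contains elements with `r` independent values
and lifts of the elements of a separating transcendence basis of the residue field.

Let `Admissible k` be the smallest class of valuation rings of extension fields of `k` which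
contains the discrete and the divergent ones, the ones which are known to be log uniformizable, the
nearly Abhyankar ones and the ruled ones of deficiency two, and which is closed under composition,
under towers without defect, and under henselian descent (from `V` to `V ∩ F`, if `V` is a valuation
ring of rank one of a finite extension of `F` in the henselization of `F`). If `K / k` is a function
field with a valuation ring `V` in the class `Admissible k` whose residue field is `k`, then `k` is
existentially closed in `K`.

For example, let `V` be a `k`-rational place of the function field `K / k` all of whose components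
of rank one have deficiency at most one, as above: then `k` is existentially closed in `K`.

The proof: the residue fields of all coarsenings of `V` are separable over `k`, because the residue
field of `V` is (`Pool.Agent.H893.EC.McL.lift`). The nearly Abhyankar valuations with a separable
residue field and the ruled ones of deficiency two are log uniformizable (helper files of
MP_5b7a2c_ag.ImperfectGroundFields), so `V` is log uniformizable, and its centre on some model is a
regular point with the residue field `k`.
-/

set_option autoImplicit false

universe u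

namespace Pool.Agent.Results.MP_db9079_lc.RationalPlacesWithDefect

open IsLocalRing Pool.Agent.W418.LU2 Pool.Agent.TH188.QS Pool.Agent.H893.EC
open scoped NNReal

/-- The field `k` is existentially closed in its extension field `K`: every finite system of
polynomial equations over `k` which has a solution in `K` has a solution in `k`. (Inequations
`g ≠ 0` can be written as equations `w * g = 1`.) -/
def ExistentiallyClosed (k K : Type u) [Field k] [Field K] [Algebra k K] : Prop :=
  ∀ (n : ℕ) (S : Set (MvPolynomial (Fin n) k)), S.Finite → ∀ a : Fin n → K,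
    (∀ f ∈ S, MvPolynomial.aeval a f = 0) → ∃ b : Fin n → k, ∀ f ∈ S, MvPolynomial.aeval b f = 0

/-- The field `k` is large: it is existentially closed in `k((T))`. -/
def IsLarge (k : Type u) [Field k] : Prop := ExistentiallyClosed k (LaurentSeries k)

/-- The local ring of `Spec B` at the centre of the valuation ring `V`: the fractions of elements
of `B` whose denominators are units of `V`. -/
def centreRing {F : Type u} [Field F] (V : ValuationSubring F) (B : Subring F) : Subring F where
  carrier := {x | ∃ a ∈ B, ∃ b ∈ B, b ≠ 0 ∧ b⁻¹ ∈ V ∧ x = a * b⁻¹}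
  mul_mem' := (lo V.toSubring B).mul_mem'
  one_mem' := (lo V.toSubring B).one_mem'
  add_mem' := (lo V.toSubring B).add_mem'
  zero_mem' := (lo V.toSubring B).zero_mem'
  neg_mem' := (lo V.toSubring B).neg_mem'

/-- The chart `A[I / f]` of the blowing-up of `Spec A` in the ideal `I`. -/
def blowUpChart {F : Type u} [Field F] (A : Subring F) (I : Ideal A) (f : A) : Subring F :=
  Subring.closure ((A : Set F) ∪ {z | ∃ a ∈ I, z = (a : F) / (f : F)})

/-- `P` is a regular local ring and the zero set of `J` is a divisor with strict normal
crossings: the radical of `J` is generated by the product of some of the elements of a regular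
system of parameters. -/
def RegularPair (P : Type u) [CommRing P] (J : Ideal P) : Prop :=
  ∃ (_ : IsRegularLocalRing P) (n : ℕ) (x : Fin n → P) (s : Finset (Fin n)),
    Ideal.span (Set.range x) = IsLocalRing.maximalIdeal P ∧ ringKrullDim P = n ∧
      J.radical = Ideal.span {∏ i ∈ s, x i}

/-- The blowing-up of `X = Spec A` in `V(I)` is a log desingularization of `(X, V(D))` along the
valuation ring `V`. Here `f ∈ I` generates `I V`, the centre of the lift of the valuation lies in
the chart `Spec A[I / f]`, and the ideal `D I` defines the preimage of `V(D) ∪ V(I)`. -/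
def IsLogDesingularization {F : Type u} [Field F] (V : ValuationSubring F) (A : Subring F)
    (D I : Ideal A) : Prop :=
  ∃ f ∈ I, f ≠ 0 ∧ (∀ a ∈ I, (a : F) / (f : F) ∈ V) ∧
    RegularPair (centreRing V (blowUpChart A I f))
      (Ideal.span {z | ∃ a ∈ D * I, (z : F) = (a : F)})

/-- The valuation ring `V` is log uniformizable on `Spec A`. (The blowings-up in the ideals
`I₀ * I₁` are cofinal: the blowing-up in `I₀ * I₁` factors through the blowing-up in `I₀`.) -/
def IsLogUniformizable {F : Type u} [Field F] (V : ValuationSubring F) (A : Subring F) : Prop :=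
  ∀ D I₀ : Ideal A, D ≠ ⊥ → I₀ ≠ ⊥ →
    ∃ I₁ : Ideal A, I₁ ≠ ⊥ ∧ IsLogDesingularization V A D (I₀ * I₁)

/-- The image of the `R`-algebra generated by `T`. -/
def adjoined {R K : Type u} [CommRing R] [Field K] (ρ : R →+* K) (T : Set K) : Subring K :=
  Subring.closure ((ρ.range : Set K) ∪ T)

/-- Every element of the field `K` is a fraction of elements of `A`. -/
def HasFractionField {K : Type u} [Field K] (A : Subring K) : Prop :=
  ∀ z : K, ∃ a ∈ A, ∃ b ∈ A, b ≠ 0 ∧ z = a * b⁻¹

/-- The field `K` is finitely generated over `R`: it is the fraction field of an `R`-algebra of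
finite type. -/
def IsFinitelyGenerated {R K : Type u} [CommRing R] [Field K] (ρ : R →+* K) : Prop :=
  ∃ T : Set K, T.Finite ∧ HasFractionField (adjoined ρ T)

/-- The quadratic transform of `Q` along `V`: the local ring, at the centre of `V`, of the
blowing-up of `Spec Q` in the centre of `V`. -/
def quadraticTransform {K : Type u} [Field K] (V : ValuationSubring K) (Q : Subring K) :
    Subring K :=
  centreRing V (Subring.closure ((Q : Set K) ∪ {t | ∃ y ∈ Q, ∃ z ∈ Q,
    V.valuation y < 1 ∧ z ≠ 0 ∧ V.valuation z < 1 ∧
      (∀ w ∈ Q, V.valuation w < 1 → V.valuation w ≤ V.valuation z) ∧ t = y / z}))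

/-- The sequence of quadratic transforms of the local ring of `Spec A` at the centre of `V`. -/
def quadraticSequence {K : Type u} [Field K] (V : ValuationSubring K) (A : Subring K) :
    ℕ → Subring K
  | 0 => centreRing V A
  | n + 1 => quadraticTransform V (quadraticSequence V A n)

/-- The values of the maximal ideals in the sequence of quadratic transforms have an infinite sum:
every value of `V` is exceeded by the value of all products `z 0 * ... * z (n - 1)` of elements
`z i` of the maximal ideals of the rings of the sequence, for some `n`. -/
def IsDivergent {K : Type u} [Field K] (V : ValuationSubring K) (A : Subring K) : Prop :=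
  ∀ x : K, x ≠ 0 → ∃ n : ℕ, ∀ z : ℕ → K,
    (∀ i < n, z i ∈ quadraticSequence V A i ∧ z i ≠ 0 ∧ V.valuation (z i) < 1) →
      V.valuation (∏ i ∈ Finset.range n, z i) < V.valuation x

/-- The value group of `v` has the rational rank `r`: there are `r` nonzero elements of `K` with
independent values, and every value has a power which is a product of powers of their values. -/
def HasRationalRank {K : Type u} [Field K] (v : Valuation K ℝ≥0) (r : ℕ) : Prop :=
  ∃ x : Fin r → K, (∀ i, x i ≠ 0) ∧ (∀ m : Fin r → ℤ, ∏ i, v (x i) ^ m i = 1 → m = 0) ∧
    ∀ z : K, z ≠ 0 → ∃ n : ℕ, n ≠ 0 ∧ ∃ m : Fin r → ℤ, v z ^ n = ∏ i, v (x i) ^ m i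

/-- The homomorphism from the ground field `k` to the residue field of a valuation `v` of the
extension `ρ : k → K` which is trivial on `k`. -/
noncomputable def residueMap {k K : Type u} [Field k] [Field K] (ρ : k →+* K)
    (v : Valuation K ℝ≥0) (hk : ∀ c : k, c ≠ 0 → v (ρ c) = 1) :
    k →+* ResidueField v.valuationSubring :=
  (residue v.valuationSubring).comp
    (ρ.codRestrict v.valuationSubring.toSubring
      (@Pool.Agent.H893.DD.kV_mem k K _ _ ρ.toAlgebra v hk))

/-- The residue field of `v` as an extension field of the ground field `k`. -/
noncomputable abbrev residueAlgebra {k K : Type u} [Field k] [Field K] (ρ : k →+* K)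
    (v : Valuation K ℝ≥0) (hk : ∀ c : k, c ≠ 0 → v (ρ c) = 1) :
    Algebra k (ResidueField v.valuationSubring) :=
  (residueMap ρ v hk).toAlgebra

/-- The valuation ring `V` of the extension field `K` of `k` is nearly Abhyankar: `K` is finitely
generated over `k`, and `V` is the valuation ring of a valuation `v` of rank one which is trivial on
`k`, has the rational rank `r ≥ 1`, and whose deficiency `tr.deg(K / k) - tr.deg(κ(v) / k) - r` is
zero (the case of equality in the Abhyankar inequality) or one. If it is one, the residue field
`κ(v)` is finitely generated over `k`, and infinite if `r = 1`. -/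
def IsNearlyAbhyankar {k K : Type u} [Field k] [Field K] (ρ : k →+* K) (V : ValuationSubring K) :
    Prop :=
  letI := ρ.toAlgebra
  Algebra.EssFiniteType k K ∧
    ∃ (v : Valuation K ℝ≥0) (hk : ∀ c : k, c ≠ 0 → v (ρ c) = 1) (r : ℕ),
      V = v.valuationSubring ∧ 1 ≤ r ∧ HasRationalRank v r ∧
        (letI := residueAlgebra ρ v hk
         Algebra.trdeg k K =
            Algebra.trdeg k (ResidueField v.valuationSubring) + (r : Cardinal) ∨
          (Algebra.trdeg k K =
              Algebra.trdeg k (ResidueField v.valuationSubring) + ((r + 1 : ℕ) : Cardinal) ∧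
            Algebra.EssFiniteType k (ResidueField v.valuationSubring) ∧
            (r = 1 → Infinite (ResidueField v.valuationSubring))))

/-- The valuation ring `V` of the extension field `K` of `k` is ruled of deficiency two. Here
`K = E(t)` is finitely generated over `k`, `E ⊇ k` is a finitely generated subfield, and `V` is the
valuation ring of a valuation `v` of rank one which is trivial on `k`, such that
`tr.deg(K / k) = r + s + 2` and `tr.deg(E / k) = r + s + 1`, where `s` is the transcendence degree
of the residue field `κ(v)` over `k` and `r ≥ 2` is the rational rank of `v` and of its restriction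
to `E`: there are `x i ∈ E`, `i < r`, with independent values, and every value of `K` has a power
which is a product of powers of their values. Moreover, `κ(v)` is finitely generated over `k`, and
`E` contains lifts of the elements of a separating transcendence basis of `κ(v)` over `k`. -/
def IsRuledOfDeficiencyTwo {k K : Type u} [Field k] [Field K] (ρ : k →+* K)
    (V : ValuationSubring K) : Prop :=
  letI := ρ.toAlgebra
  Algebra.EssFiniteType k K ∧
    ∃ (v : Valuation K ℝ≥0) (hk : ∀ c : k, c ≠ 0 → v (ρ c) = 1), V = v.valuationSubring ∧
      ∃ (E : IntermediateField k K) (t : K) (r : ℕ) (x : Fin r → E), Algebra.EssFiniteType k E ∧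
        E ⊔ IntermediateField.adjoin k {t} = ⊤ ∧ 2 ≤ r ∧ (∀ i, x i ≠ 0) ∧
        (∀ m : Fin r → ℤ, ∏ i, v (x i : K) ^ m i = 1 → m = 0) ∧
        (∀ z : K, z ≠ 0 → ∃ n : ℕ, n ≠ 0 ∧ ∃ m : Fin r → ℤ, v z ^ n = ∏ i, v (x i : K) ^ m i) ∧
        (letI := residueAlgebra ρ v hk
         Algebra.EssFiniteType k (ResidueField v.valuationSubring) ∧
          (∃ s : Finset (ResidueField v.valuationSubring),
            IsTranscendenceBasis k ((↑) : s → ResidueField v.valuationSubring) ∧
            Algebra.IsSeparable
              (IntermediateField.adjoin k (s : Set (ResidueField v.valuationSubring)))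
              (ResidueField v.valuationSubring) ∧
            ∀ i ∈ s, ∃ y : v.valuationSubring, (y : K) ∈ E ∧ residue v.valuationSubring y = i) ∧
          Algebra.trdeg k E =
            Algebra.trdeg k (ResidueField v.valuationSubring) + ((r + 1 : ℕ) : Cardinal) ∧
          Algebra.trdeg k K =
            Algebra.trdeg k (ResidueField v.valuationSubring) + ((r + 2 : ℕ) : Cardinal))

/-- `V` is the composite of the valuation ring `V₁` and the valuation ring `W` of its residue
field. -/
def IsComposite {K : Type u} [Field K] (V V₁ : ValuationSubring K)
    (W : ValuationSubring (ResidueField V₁)) : Prop :=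
  ∀ z : K, z ∈ V ↔ ∃ hz : z ∈ V₁, residue V₁ ⟨z, hz⟩ ∈ W

section key

open Polynomial

variable {K : Type u} [Field K] (V : ValuationSubring K) {L : Subfield K} (θ : K)

/-- The monic polynomial `ϕ` over `L` of positive degree is a key polynomial for the valuation
`f ↦ |f(θ)|` of polynomials: if `f` and `g` are nonzero polynomials of smaller degree and
`f g = q ϕ + r` with `deg r < deg ϕ`, then `|q(θ) ϕ(θ)| < |f(θ) g(θ)|`. -/
def IsKey (ϕ : L[X]) : Prop :=
  ϕ.Monic ∧ 0 < ϕ.natDegree ∧ ∀ f g : L[X], f.degree < ϕ.degree → g.degree < ϕ.degree →
    f ≠ 0 → g ≠ 0 → V.valuation (aeval θ (f * g /ₘ ϕ * ϕ)) < V.valuation (aeval θ (f * g))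

/-- The polynomials of degree less than the degree of `ϕ` have an orthogonal basis over `L` with
respect to the valuation `f ↦ |f(θ)|`. -/
def IsDefectless (ϕ : L[X]) : Prop :=
  ∃ (n : ℕ) (β : Fin n → L[X]), (∀ i, (β i).degree < ϕ.degree ∧ β i ≠ 0) ∧
    (∀ f : L[X], f.degree < ϕ.degree → ∃ c : Fin n → L, f = ∑ i, C (c i) * β i) ∧
    ∀ (c : Fin n → L) (i : Fin n), V.valuation (aeval θ (C (c i) * β i)) ≤
      V.valuation (aeval θ (∑ j, C (c j) * β j))

/-- The value of `f(θ)` is determined by `ϕ`: in the `ϕ`-adic expansion `f = ∑ f_k ϕ ^ k` with
`deg f_k < deg ϕ` the value of no term at `θ` is greater than the value of `f(θ)`. -/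
def IsDetermined (ϕ f : L[X]) : Prop :=
  ∃ (N : ℕ) (d : ℕ → L[X]), (∀ k, (d k).degree < ϕ.degree) ∧
    f = ∑ k ∈ Finset.range N, d k * ϕ ^ k ∧
    ∀ k < N, V.valuation (aeval θ (d k * ϕ ^ k)) ≤ V.valuation (aeval θ f)

end key

open Polynomial in
/-- The extension `L ⊆ L'` of subfields of `K` is finite and has no defect with respect to the
valuation ring `V` of `K`: for some valuation ring `W` over `V` of some extension field `M` of `K`
(for example the henselization), some root `ζ ∈ M` of a monic polynomial `f` over `V ∩ L` with
`|f'(ζ)| = 1`, and some nonzero elements `β i` of `L'`, the field `L'` is contained in the sum of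
the lines `L(ζ) β i`, and the `β i` are orthogonal over `L(ζ) = L[ζ]`. -/
def IsFiniteWithoutDefect {K : Type u} [Field K] (V : ValuationSubring K) (L L' : Subfield K) :
    Prop :=
  L ≤ L' ∧ ∃ (M : Type u) (_ : Field M) (_ : Algebra K M) (W : ValuationSubring M) (ζ : M)
    (f : L[X]) (n : ℕ) (β : Fin n → K), W.comap (algebraMap K M) = V ∧ f.Monic ∧
    (∀ i, (f.coeff i : K) ∈ V) ∧ eval₂ ((algebraMap K M).comp L.subtype) ζ f = 0 ∧
    W.valuation (eval₂ ((algebraMap K M).comp L.subtype) ζ (derivative f)) = 1 ∧
    (∀ i, β i ∈ L' ∧ β i ≠ 0) ∧
    (∀ z ∈ L', ∃ c : Fin n → L[X], algebraMap K M z =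
      ∑ i, eval₂ ((algebraMap K M).comp L.subtype) ζ (c i) * algebraMap K M (β i)) ∧
    ∀ (c : Fin n → L[X]) (i : Fin n),
      W.valuation (eval₂ ((algebraMap K M).comp L.subtype) ζ (c i) * algebraMap K M (β i)) ≤
        W.valuation (∑ j, eval₂ ((algebraMap K M).comp L.subtype) ζ (c j) * algebraMap K M (β j))

open Polynomial in
/-- The subfields `L` of `K` which are reached from the field `E` by a tower of steps without
defect with respect to the valuation ring `V` of `K`. -/
inductive Tower (E : Type u) {K : Type u} [Field E] [Field K] [Algebra E K]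
    (V : ValuationSubring K) : Subfield K → Prop
  /-- The tower starts with (the image of) `E`. -/
  | base : Tower E V (algebraMap E K).fieldRange
  /-- The step from `L` to `L(t)`, where `t` is transcendental and the value of every polynomial in
  `t` is determined by a defectless key polynomial. -/
  | transcendental (L : Subfield K) (t : K) : Tower E V L → Transcendental L t →
    (∀ f : L[X], ∃ ϕ : L[X], IsKey V t ϕ ∧ IsDefectless V t ϕ ∧ IsDetermined V t ϕ f) →
    Tower E V (L ⊔ Subfield.closure {t})
  /-- The step from `L` to a finite extension `L'` without defect. -/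
  | finite (L L' : Subfield K) : Tower E V L → IsFiniteWithoutDefect V L L' → Tower E V L'

/-- The valuation ring `V` of the field `L` has rank one: it is a maximal proper subring which is a
valuation ring. -/
def IsRankOne {L : Type u} [Field L] (V : ValuationSubring L) : Prop :=
  V ≠ ⊤ ∧ ∀ U : ValuationSubring L, V < U → U = ⊤

open Polynomial in
/-- The extension `L = F(ζ)` of `F` lies in the henselization of `F` with respect to `V ∩ F`: the
minimal polynomial `h` of `ζ` over `F` has coefficients in `V`, its derivative satisfies
`|h'(ζ)| = 1`, and `|ζ - a| < 1` for some `a ∈ F`. -/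
def IsInHenselization (F : Type u) {L : Type u} [Field F] [Field L] [Algebra F L]
    (V : ValuationSubring L) : Prop :=
  ∃ (ζ : L) (a : F), (∀ z : L, ∃ f : F[X], aeval ζ f = z) ∧
    (∀ i, algebraMap F L ((minpoly F ζ).coeff i) ∈ V) ∧
    V.valuation (aeval ζ (derivative (minpoly F ζ))) = 1 ∧
    V.valuation (ζ - algebraMap F L a) < 1

/-- The smallest class of valuation rings of extension fields of `k` which contains the discrete and
divergent ones, the known ones, the nearly Abhyankar ones and the ruled ones of deficiency two, and
which is closed under composition, towers without defect and henselian descent. -/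
inductive Admissible (k : Type u) [Field k] :
    ∀ {K : Type u} [Field K], (k →+* K) → ValuationSubring K → Prop
  /-- The trivial valuation rings. -/
  | trivial {K : Type u} [Field K] (ρ : k →+* K) : Admissible k ρ (⊤ : ValuationSubring K)
  /-- The discrete valuation rings of rank one, and the valuation rings with divergent sequences of
  quadratic transforms of all `k`-algebras of finite type. -/
  | divergent {K : Type u} [Field K] (ρ : k →+* K) (V : ValuationSubring K) :
    (IsDiscreteValuationRing V ∨ ∀ T : Set K, T.Finite → adjoined ρ T ≤ V.toSubring →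
      IsDivergent V (adjoined ρ T)) → Admissible k ρ V
  /-- The valuation rings of a finitely generated field which are log uniformizable on the spectra
  of all `k`-algebras of finite type with this fraction field. -/
  | known {K : Type u} [Field K] (ρ : k →+* K) (V : ValuationSubring K) : IsFinitelyGenerated ρ →
    (∀ T : Set K, T.Finite → adjoined ρ T ≤ V.toSubring → HasFractionField (adjoined ρ T) →
      IsLogUniformizable V (adjoined ρ T)) → Admissible k ρ V
  /-- The nearly Abhyankar valuation rings. -/
  | nearlyAbhyankar {K : Type u} [Field K] (ρ : k →+* K) (V : ValuationSubring K) :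
    IsNearlyAbhyankar ρ V → Admissible k ρ V
  /-- The ruled valuation rings of deficiency two. -/
  | ruled {K : Type u} [Field K] (ρ : k →+* K) (V : ValuationSubring K) :
    IsRuledOfDeficiencyTwo ρ V → Admissible k ρ V
  /-- The composites of a valuation ring `V₁` and a valuation ring `W` of its residue field. -/
  | composite {K : Type u} [Field K] (ρ : k →+* K) (V V₁ : ValuationSubring K)
    (W : ValuationSubring (ResidueField V₁)) (hρ : ∀ a, ρ a ∈ V₁.toSubring) :
    IsComposite V V₁ W → Admissible k ρ V₁ →
    Admissible k ((residue V₁).comp (ρ.codRestrict V₁.toSubring hρ)) W → Admissible k ρ V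
  /-- The valuation rings of a field `K` which is reached by a tower without defect from a finitely
  generated field `E` whose valuation ring is in the class. -/
  | tower {E K : Type u} [Field E] [Field K] [Algebra E K] (ρ : k →+* E)
    (V : ValuationSubring K) : (∀ a, algebraMap E K (ρ a) ∈ V) → IsFinitelyGenerated ρ →
    Admissible k ρ (V.comap (algebraMap E K)) → Tower E V ⊤ →
    Admissible k ((algebraMap E K).comp ρ) V
  /-- Henselian descent: the valuation rings `V ∩ F` of a finitely generated field `F`, where `V` is
  a valuation ring of rank one in the class of a finite extension of `F` in the henselization. -/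
  | descent {F L : Type u} [Field F] [Field L] [Algebra F L] (ρ : k →+* F)
    (V : ValuationSubring L) : (∀ a, algebraMap F L (ρ a) ∈ V) → IsFinitelyGenerated ρ →
    IsRankOne V → IsInHenselization F V → Admissible k ((algebraMap F L).comp ρ) V →
    Admissible k ρ (V.comap (algebraMap F L))

lemma quadraticSequence_eq {K : Type u} [Field K] (V : ValuationSubring K) (A : Subring K) :
    quadraticSequence V A = qseq V A := by
  funext n
  induction n with
  | zero => rfl
  | succ n ih =>
    change quadraticTransform V (quadraticSequence V A n) = qt V.toSubring (qseq V A n)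
    rw [ih, qt_val]
    rfl

lemma IsDivergent.dv {K : Type u} [Field K] {V : ValuationSubring K} {A : Subring K}
    (h : IsDivergent V A) : Dv V (qseq V A) := by
  rw [← quadraticSequence_eq]
  exact dv_of_lt h

/-- The steps of a tower. -/
lemma Tower.inv {E K : Type u} [Field E] [Field K] [Algebra E K] {V : ValuationSubring K}
    {R' : Subring K} (h0 : Pool.Agent.H176.DT.Inv V R' (algebraMap E K).fieldRange.subtype)
    {L : Subfield K} (hL : Tower E V L) : Pool.Agent.H176.DT.Inv V R' L.subtype := by
  have kp : ∀ {L : Subfield K} {θ : K} {ϕ : Polynomial L}, IsKey V θ ϕ → IsDefectless V θ ϕ →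
      ∃ (n : ℕ) (β : Fin n → Polynomial L), Pool.Agent.H176.DT.KP V θ ϕ β := by
    rintro L θ ϕ ⟨h1, h2, h3⟩ ⟨n, β, h4, h5, h6⟩
    exact ⟨n, β, h1, h2, fun i => (h4 i).1, fun i => (h4 i).2, h5, h6, h3⟩
  induction hL with
  | base => exact h0
  | transcendental L t _ ht hdom ih =>
    refine Pool.Agent.H176.DT.sub_trans V _ t ht (fun f => ?_) ih
    obtain ⟨ϕ, h1, h2, N, d, h3, h4, h5⟩ := hdom f
    obtain ⟨n, β, h6⟩ := kp h1 h2
    exact ⟨ϕ, n, β, h6, N, d, ⟨h3, h4⟩, h5⟩
  | finite L L' _ hnd ih => exact Pool.Agent.H176.DT.sub_nd V _ hnd.1 hnd.2 ih

lemma essFinite_of {k F : Type u} [Field k] [Field F] {ρ : k →+* F}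
    (h : IsFinitelyGenerated ρ) : letI := ρ.toAlgebra; Algebra.EssFiniteType k F := by
  let _ := ρ.toAlgebra
  obtain ⟨S, hS, hSF⟩ := h
  refine (Algebra.essFiniteType_iff (R := k) (S := F)).2 ⟨hS.toFinset, fun z => ?_⟩
  have hle : ∀ x ∈ adjoined ρ S, x ∈ Algebra.adjoin k ((hS.toFinset : Finset F) : Set F) := by
    intro x hx
    have h1 : adjoined ρ S ≤ (Algebra.adjoin k ((hS.toFinset : Finset F) : Set F)).toSubring := by
      unfold adjoined
      rw [Subring.closure_le]
      rintro z (⟨c, rfl⟩ | hz)
      · exact Subalgebra.algebraMap_mem _ c
      · exact Algebra.subset_adjoin (by simpa using hz)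
    exact h1 hx
  obtain ⟨a, ha, b, hb, hb0, rfl⟩ := hSF z
  exact ⟨b, hle b hb, isUnit_iff_ne_zero.2 hb0, by
    rw [inv_mul_cancel_right₀ hb0]
    exact hle a ha⟩

lemma Admissible.good {k : Type u} [Field k] (p : ℕ) [Fact p.Prime] [CharP k p]
    {K : Type u} [Field K] {ρ : k →+* K} {V : ValuationSubring K} (h : Admissible k ρ V) :
    (∀ a, ρ a ∈ V.toSubring) → McLV p ρ V → Pool.Agent.R187.CT.Good ρ V := by
  induction h with
  | trivial ρ => exact fun _ _ => Pool.Agent.R187.CT.good_top ρ
  | divergent ρ V h =>
    exact fun _ _ => Pool.Agent.R187.CT.good_dv (hjF k) ρ V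
      (h.imp_right fun h T hT hTV => (h T hT hTV).dv)
  | known ρ V hK h => exact fun _ _ => Pool.Agent.R187.CT.good_given (hjF k) ρ V hK h
  | composite ρ V V₁ W hρ hc _ _ ih₁ ihW =>
    intro hρV hm
    have hW : ∀ a, rmap ρ V₁ hρ a ∈ W.toSubring := fun a => ((hc (ρ a)).1 (hρV a)).2
    have hmW : McLV p (rmap ρ V₁ hρ) W := hm.comp hρ hc
    exact Pool.Agent.R187.CT.good_comp (hjF k) ρ hρ hc (ih₁ hρ (mcLV_of_res (hmW.field hW)))
      (ihW hW hmW)
  | tower ρ V hρ hE _ ht ih =>
    intro _ hm
    exact Pool.Agent.R187.CT.good_tower (hjF k) ρ V hρ hE (ih hρ hm.tower)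
      fun R' h0 => ht.inv h0
  | @descent F L _ _ _ ρ V hρ hF hr1 hhens _ ih =>
    intro _ hm
    obtain ⟨ζ, a, hgen, hcoef, hder, hres⟩ := hhens
    have hint : IsIntegral F ζ := by
      by_contra h1
      rw [minpoly.eq_zero h1, Polynomial.derivative_zero, map_zero, map_zero] at hder
      exact zero_ne_one hder
    have halg : Algebra.IsAlgebraic F L := ⟨fun z => by
      obtain ⟨f, rfl⟩ := hgen z
      rw [Polynomial.aeval_eq_sum_range]
      refine (IsIntegral.sum _ fun i _ => ?_).isAlgebraic
      exact (hint.pow i).smul _⟩
    let _ := ρ.toAlgebra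
    have hess : Algebra.EssFiniteType k F := essFinite_of hF
    have harch := Pool.Agent.H893.DD.t_arch V hr1.2
    exact good_desc (hjF k) ρ V hρ hF ζ hgen hcoef hder a hres harch
      (Pool.Agent.H893.DD.t_nt V hr1.1)
      (@Pool.Agent.H893.DD.t_frr k F L _ _ _ _ _ hess halg V hρ)
      (ih hρ (hm.hens hρ (dense_hens (minpoly.monic hint) hcoef (minpoly.aeval F ζ) hder hres harch
        hgen)))
  | @nearlyAbhyankar K _ ρ V h =>
    intro _ hm
    let _ := ρ.toAlgebra
    obtain ⟨hess, v, hk, r, rfl, hr, ⟨x, hx0, hind, hrr⟩, h⟩ := h
    have hess' : Algebra.EssFiniteType k K := hess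
    exact @Pool.Agent.H893.AB.good_mcl2 k K _ p _ _ _ _ hess' v hk hm r hr h x hx0 hind hrr
  | @ruled K _ ρ V h =>
    intro _ _
    let _ := ρ.toAlgebra
    obtain ⟨hess, v, hk, rfl, h⟩ := h
    have hess' : Algebra.EssFiniteType k K := hess
    exact @Pool.Agent.H893.TW.good_rul k K _ p _ _ _ _ hess' v hk h

lemma exists_gen (k K : Type u) [Field k] [Field K] [Algebra k K] [Algebra.EssFiniteType k K] :
    ∃ S : Set K, S.Finite ∧ ∀ z, Fr (Pool.Agent.R187.CT.rg (algebraMap k K) S) z := by
  obtain ⟨σ, hσ⟩ := (Algebra.essFiniteType_iff (R := k) (S := K)).1 inferInstance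
  refine ⟨(σ : Set K), σ.finite_toSet, fun z => ?_⟩
  obtain ⟨t, ht, htu, hzt⟩ := hσ z
  have hle : ∀ x ∈ Algebra.adjoin k (σ : Set K),
      x ∈ Pool.Agent.R187.CT.rg (algebraMap k K) (σ : Set K) := by
    intro x hx
    induction hx using Algebra.adjoin_induction with
    | mem s hs => exact Subring.subset_closure (Or.inr hs)
    | algebraMap r => exact Subring.subset_closure (Or.inl ⟨r, rfl⟩)
    | add x y _ _ h1 h2 => exact Subring.add_mem _ h1 h2
    | mul x y _ _ h1 h2 => exact Subring.mul_mem _ h1 h2
  have ht0 : t ≠ 0 := htu.ne_zero
  exact ⟨z * t, hle _ hzt, t, hle _ ht, ht0, (mul_inv_cancel_right₀ ht0 z).symm⟩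

/-- Let `k` be a large field of characteristic `p > 0` and let `K` be a finitely generated extension
field of `k`. Let `V` be a valuation ring of `K` which contains `k`, whose residue field is `k`
(`hV`), and which is in the class `Admissible k` generated by the discrete, divergent, known and
nearly Abhyankar valuation rings and the ruled ones of deficiency two under composition, towers
without defect and henselian descent. Then `k` is existentially closed in `K`. -/
theorem result (p : ℕ) [Fact p.Prime] {k K : Type u} [Field k] [CharP k p] (hk : IsLarge k)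
    [Field K] [Algebra k K] [Algebra.EssFiniteType k K] (V : ValuationSubring K)
    (hkV : ∀ a : k, algebraMap k K a ∈ V)
    (hV : ∀ a ∈ V, ∃ c : k, V.valuation (a - algebraMap k K c) < 1)
    (hadm : Admissible k (algebraMap k K) V) : ExistentiallyClosed k K :=
  ec_of_good hk V hkV hV (exists_gen k K)
    (hadm.good p hkV (McLV.of_le_range hkV hV))

end Pool.Agent.Results.MP_db9079_lc.RationalPlacesWithDefect
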